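import Mathlib

/-!
Blueprint (helper129) for MP_7e3249_co: k-abelian classes that contain an n-th power.
-/

namespace Pool.Agent.KA129

open Asymptotics

/-- The number of occurrences of the word `x` as a factor of `w`. -/
def occ {A : Type} [DecidableEq A] (x w : List A) : ℕ :=
  w.tails.countP (fun t => decide (x <+: t))

/-- `k`-abelian equivalence. -/
def KAb {A : Type} [DecidableEq A] (k : ℕ) (u v : List A) : Prop :=
  ∀ x : List A, x ≠ [] → x.length ≤ k → occ x u = occ x v

/-- The power `w ^ n`. -/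
def pow {A : Type} (n : ℕ) (w : List A) : List A := (List.replicate n w).flatten

/-- The number of `k`-abelian classes of words of length `N` over `m` letters which contain an
`n`-th power. -/
noncomputable def c (m k n N : ℕ) : ℕ :=
  Set.ncard {C : Set (List (Fin m)) | ∃ w : List (Fin m), (pow n w).length = N ∧
    C = {v | v.length = N ∧ KAb k (pow n w) v}}

/-- The number of `k`-abelian classes of words of length `L` over `m` letters. -/
noncomputable def numClasses (m k L : ℕ) : ℕ :=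
  Set.ncard {C : Set (List (Fin m)) | ∃ w : List (Fin m), w.length = L ∧
    C = {v | v.length = L ∧ KAb k w v}}

/-- Words of length `k` over `m + 1` letters which do not begin with the letter `0`. -/
def Y (m k : ℕ) : Finset (List (Fin (m + 1))) :=
  ((Finset.univ : Finset (List.Vector (Fin (m + 1)) k)).image (fun v => v.toList)).filter
    (fun y => y.head? ≠ some 0)

/-- Zeros, blocks `y 0^(k-1)`, zeros. -/
def W {m : ℕ} (k r : ℕ) (ys : List (List (Fin (m + 1)))) : List (Fin (m + 1)) :=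
  List.replicate (k - 1) 0 ++ ys.flatMap (fun y => y ++ List.replicate (k - 1) 0) ++
    List.replicate r 0

/-- Number of changes of a binary word. -/
def chg (w : List (Fin 2)) : ℕ := occ [0, 1] w + occ [1, 0] w

/-! ### Tasks -/

/-- `x` at a position is followed by a letter or is at the end (suffix). -/
def TaskRight : Prop := ∀ (m : ℕ) (x w : List (Fin m)), x ≠ [] →
  occ x w = (∑ b : Fin m, occ (x ++ [b]) w) + (if x <:+ w then 1 else 0)

/-- `x` at a position is preceded by a letter or is at the start (prefix). -/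
def TaskLeft : Prop := ∀ (m : ℕ) (x w : List (Fin m)), x ≠ [] →
  occ x w = (∑ a : Fin m, occ (a :: x) w) + (if x <+: w then 1 else 0)

/-- The last summand counts the crossing occurrences. Induction on `u`. -/
def TaskAppend : Prop := ∀ (m : ℕ) (x u v : List (Fin m)), x ≠ [] →
  occ x (u ++ v) = occ x u + occ x v +
    occ x (u.drop (u.length - (x.length - 1)) ++ v.take (x.length - 1))

/-- `TaskLeft`, `TaskRight` for the words of length `k - 1`. -/
def TaskEnds : Prop := ∀ (m k : ℕ) (u v : List (Fin m)), u.length = v.length →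
  k ≤ u.length + 1 → KAb k u v →
  u.take (k - 1) = v.take (k - 1) ∧
    u.drop (u.length - (k - 1)) = v.drop (v.length - (k - 1))

/-- `occ x (u^n) = n * occ x u + (n-1) * (crossing occurrences, from the ends of u)`. -/
def TaskPow : Prop := ∀ (m k n : ℕ) (u v : List (Fin m)), 1 ≤ n → u.length = v.length →
  k ≤ u.length + 1 → (KAb k (pow n u) (pow n v) ↔ KAb k u v)

def TaskImg : Prop := ∀ (α β γ : Type) (S : Set α) (f : α → β) (g : α → γ),
  (∀ x ∈ S, ∀ y ∈ S, f x = f y ↔ g x = g y) → (f '' S).ncard = (g '' S).ncard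

def TaskIdentity : Prop := ∀ m k n L : ℕ, 1 ≤ n → k ≤ L + 1 → c m k n (n * L) = numClasses m k L

def TaskY : Prop := ∀ m k : ℕ, 1 ≤ k →
  (∀ y, y ∈ Y m k ↔ y.length = k ∧ y.head? ≠ some 0) ∧ (Y m k).card = m * (m + 1) ^ (k - 1)

/-- No occurrence of `z` starts in a zero, and no occurrence crosses from one block to the next. -/
def TaskBlock : Prop := ∀ (m k r : ℕ) (z : List (Fin (m + 1))) (ys : List (List (Fin (m + 1)))),
  1 ≤ k → z.length = k → z.head? ≠ some 0 → (∀ y ∈ ys, y.length = k) →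
  occ z (W k r ys) = (ys.map (fun y => occ z (y ++ List.replicate (k - 1) 0))).sum

/-- Unitriangular: `occ z (y 0^(k-1))` is 1 for `z = y` and otherwise 0 unless `z` has more trailing
zeros than `y`. Strong induction on the number of trailing zeros of `y`. -/
def TaskTri : Prop := ∀ (m k : ℕ) (t t' : List (Fin (m + 1)) → ℕ), 1 ≤ k →
  (∀ z ∈ Y m k, ∑ y ∈ Y m k, t y * occ z (y ++ List.replicate (k - 1) 0) =
    ∑ y ∈ Y m k, t' y * occ z (y ++ List.replicate (k - 1) 0)) → ∀ y ∈ Y m k, t y = t' y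

/-- Words `W k r ys`, `ys` = each `y` in `Y` repeated `t y ≤ q` times. -/
def TaskLow : Prop := ∀ m k q L : ℕ, 1 ≤ k → (k - 1) + (2 * k - 1) * q * (Y m k).card ≤ L →
  (q + 1) ^ (Y m k).card ≤ numClasses (m + 1) k L

/-- Words `y` of length `k` by the number of leading zeros: `occ (0 v) = sum occ (v b) + [v suffix] -
[v prefix] - sum_{a ≠ 0} occ (a v)`; `0^k` by the total number `|u| - k + 1`; shorter words by
`TaskRight`. -/
def TaskSig : Prop := ∀ (m k : ℕ) (u v : List (Fin (m + 1))), 1 ≤ k → u.length = v.length →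
  k ≤ u.length + 1 → u.take (k - 1) = v.take (k - 1) →
  u.drop (u.length - (k - 1)) = v.drop (v.length - (k - 1)) →
  (∀ y, y.length = k → y.head? ≠ some 0 → occ y u = occ y v) → KAb k u v

def TaskUp : Prop := ∀ m k L : ℕ, 1 ≤ k → k ≤ L + 1 →
  numClasses (m + 1) k L ≤ ((m + 1) ^ (k - 1)) ^ 2 * (L + 1) ^ (Y m k).card

def TaskTheta : Prop := ∀ m k n : ℕ, 1 ≤ k → 1 ≤ n →
  (fun L : ℕ => (c (m + 1) k n (n * L) : ℝ)) =Θ[Filter.atTop]
    fun L : ℕ => (L : ℝ) ^ (m * (m + 1) ^ (k - 1))

/-! binary words, `k = 2` -/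

def TaskSigTwo : Prop := ∀ u v : List (Fin 2), u ≠ [] → u.length = v.length →
  (KAb 2 u v ↔ u.head? = v.head? ∧ chg u = chg v ∧ occ [1] u = occ [1] v)

/-- The letter `a` has `(c + 2) / 2` runs, the other letter `(c + 1) / 2`. -/
def TaskImTwo : Prop := ∀ (L : ℕ) (a : Fin 2) (c p : ℕ), 1 ≤ L →
  ((∃ w : List (Fin 2), w.length = L ∧ w.head? = some a ∧ chg w = c ∧ occ [a] w = p) ↔
    (c = 0 ∧ p = L) ∨ (1 ≤ c ∧ (c + 2) / 2 ≤ p ∧ p + (c + 1) / 2 ≤ L))

def TaskCardTwo : Prop := ∀ L : ℕ, 1 ≤ L →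
  {q : ℕ × ℕ | (q.1 = 0 ∧ q.2 = L) ∨
    (1 ≤ q.1 ∧ (q.1 + 2) / 2 ≤ q.2 ∧ q.2 + (q.1 + 1) / 2 ≤ L)}.ncard = L * (L - 1) / 2 + 1

def TaskNumTwo : Prop := ∀ L : ℕ, 1 ≤ L → numClasses 2 2 L + L = L ^ 2 + 2

end Pool.Agent.KA129
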