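import Pool.Agent.KA129.Stmts

set_option autoImplicit false

namespace Pool.Agent.KA129.TaskAppend

open Pool.Agent.KA129

private theorem occ_cons {A : Type} [DecidableEq A] (x : List A) (a : A) (w : List A) :
    occ x (a :: w) = (if x <+: a :: w then 1 else 0) + occ x w := by
  unfold occ
  rw [List.tails_cons, List.countP_cons]
  by_cases h : x <+: a :: w
  · simp [h, add_comm]
  · simp [h]

private theorem occ_nil {A : Type} [DecidableEq A] (x : List A) (hx : x ≠ []) :
    occ x ([] : List A) = 0 := by
  unfold occ
  simp [hx]

private theorem occ_short {A : Type} [DecidableEq A] (x : List A) (hx : x ≠ []) (w : List A)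
    (hw : w.length < x.length) : occ x w = 0 := by
  induction w with
  | nil => exact occ_nil x hx
  | cons a w ih =>
    rw [occ_cons, ih (by simp at hw; omega), if_neg]
    intro h
    have := h.length_le
    omega

private theorem pre_iff {A : Type} (x l v : List A) (h : x.length ≤ l.length) :
    x <+: l ++ v ↔ x <+: l :=
  ⟨fun h1 => List.prefix_of_prefix_length_le h1 (List.prefix_append l v) h,
    fun h1 => h1.trans (List.prefix_append l v)⟩

theorem main : Pool.Agent.KA129.TaskAppend := by
  intro m x u v hx
  have hx0 : 0 < x.length := List.length_pos_iff.2 hx
  induction u with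
  | nil =>
    rw [List.nil_append, occ_nil x hx, List.drop_nil, List.nil_append,
      occ_short x hx (v.take (x.length - 1)) (by rw [List.length_take]; omega)]
    omega
  | cons a u ih =>
    rw [List.cons_append, occ_cons, ih, occ_cons x a u]
    by_cases hc : u.length + 1 ≤ x.length - 1
    · have h1 : (a :: u).length - (x.length - 1) = 0 := by rw [List.length_cons]; omega
      have h2 : u.length - (x.length - 1) = 0 := by omega
      rw [h1, h2, List.drop_zero, List.drop_zero, List.cons_append, occ_cons]
      have h3 : ¬ x <+: a :: u := by
        intro h
        have := h.length_le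
        rw [List.length_cons] at this
        omega
      have h4 : x <+: a :: (u ++ v) ↔ x <+: a :: (u ++ v.take (x.length - 1)) := by
        by_cases hv : v.length ≤ x.length - 1
        · rw [List.take_of_length_le hv]
        · have h5 : a :: (u ++ v) = (a :: (u ++ v.take (x.length - 1))) ++ v.drop (x.length - 1) := by
            rw [List.cons_append, List.append_assoc, List.take_append_drop]
          rw [h5]
          refine pre_iff _ _ _ ?_
          rw [List.length_cons, List.length_append, List.length_take]
          omega
      rw [if_neg h3]
      by_cases h6 : x <+: a :: (u ++ v)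
      · rw [if_pos h6, if_pos (h4.1 h6)]
        omega
      · rw [if_neg h6, if_neg (fun h => h6 (h4.2 h))]
        omega
    · have h1 : (a :: u).length - (x.length - 1) = (u.length - (x.length - 1)) + 1 := by
        rw [List.length_cons]; omega
      rw [h1, List.drop_succ_cons]
      have h4 : x <+: a :: (u ++ v) ↔ x <+: a :: u := by
        rw [← List.cons_append]
        refine pre_iff _ _ _ ?_
        rw [List.length_cons]
        omega
      by_cases h6 : x <+: a :: (u ++ v)
      · rw [if_pos h6, if_pos (h4.1 h6)]
        omega
      · rw [if_neg h6, if_neg (fun h => h6 (h4.2 h))]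
        omega

end Pool.Agent.KA129.TaskAppend
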