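import Pool.Agent.KA129.Stmts

/-! KA.TaskBlock (author: helper119). -/

namespace Pool.Agent.KA129.TaskBlock

open Pool.Agent.KA129

variable {m : ℕ}

theorem occ_cons (z t : List (Fin (m + 1))) (a : Fin (m + 1)) :
    occ z (a :: t) = (if z <+: (a :: t) then 1 else 0) + occ z t := by
  unfold occ
  rw [List.tails_cons, List.countP_cons]
  by_cases h : z <+: (a :: t)
  · simp [h, Nat.add_comm]
  · simp [h]

theorem occ_short (z : List (Fin (m + 1))) : ∀ w : List (Fin (m + 1)), w.length < z.length →
    occ z w = 0
  | [], h => by
    have hz : z ≠ [] := by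
      intro hz
      rw [hz] at h
      simp at h
    unfold occ
    simp [hz]
  | a :: w, h => by
    rw [occ_cons, occ_short z w (by simp at h; omega), if_neg]
    intro hp
    have := hp.length_le
    omega

theorem occ_zero_cons (z t : List (Fin (m + 1))) (hz : z ≠ []) (h0 : z.head? ≠ some 0) :
    occ z (0 :: t) = occ z t := by
  rw [occ_cons, if_neg, zero_add]
  intro hp
  cases z with
  | nil => exact hz rfl
  | cons b z' =>
    obtain ⟨s, hs⟩ := hp
    rw [List.cons_append] at hs
    injection hs with h1 _
    exact h0 (by rw [h1]; rfl)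

theorem occ_zeros (z t : List (Fin (m + 1))) (hz : z ≠ []) (h0 : z.head? ≠ some 0) (j : ℕ) :
    occ z (List.replicate j 0 ++ t) = occ z t := by
  induction j with
  | zero => simp
  | succ j ih => rw [List.replicate_succ, List.cons_append, occ_zero_cons z _ hz h0, ih]

theorem main (h : Pool.Agent.KA129.TaskAppend) : Pool.Agent.KA129.TaskBlock := by
  intro m k r z ys hk hzk h0 _
  have hz : z ≠ [] := by
    intro hz
    rw [hz] at hzk
    simp at hzk
    omega
  unfold W
  rw [List.append_assoc, occ_zeros z _ hz h0]
  induction ys with
  | nil =>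
    have := occ_zeros z [] hz h0 r
    rw [List.append_nil] at this
    rw [List.flatMap_nil, List.nil_append, this, List.map_nil, List.sum_nil]
    exact occ_short z [] (by rw [hzk]; exact hk)
  | cons y ys ih =>
    rw [List.flatMap_cons, List.append_assoc, List.map_cons, List.sum_cons]
    rw [h (m + 1) z (y ++ List.replicate (k - 1) 0) _ hz]
    rw [ih (by intro y' hy'; rename_i hlen; exact hlen y' (List.mem_cons_of_mem _ hy'))]
    have hlen : (y ++ List.replicate (k - 1) (0 : Fin (m + 1))).length - (z.length - 1) =
        y.length := by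
      rw [List.length_append, List.length_replicate, hzk]
      omega
    rw [hlen, List.drop_left, hzk, occ_zeros z _ hz h0]
    have hs : ∀ w : List (Fin (m + 1)), occ z (List.take (k - 1) w) = 0 := fun w =>
      occ_short z _ (by rw [hzk, List.length_take]; omega)
    rw [hs, add_zero]

end Pool.Agent.KA129.TaskBlock
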