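import Pool.Agent.KA129.Stmts

set_option autoImplicit false

namespace Pool.Agent.KA129.TaskCardTwo

open Pool.Agent.KA129

/-- the finset of the pairs with `1 ≤ c` -/
def F (L : ℕ) : Finset (ℕ × ℕ) :=
  (Finset.Icc 1 L).biUnion fun c => (Finset.Icc ((c + 2) / 2) (L - (c + 1) / 2)).image fun p => (c, p)

theorem mem_F (L : ℕ) (q : ℕ × ℕ) :
    q ∈ F L ↔ (1 ≤ q.1 ∧ (q.1 + 2) / 2 ≤ q.2 ∧ q.2 + (q.1 + 1) / 2 ≤ L) := by
  obtain ⟨c, p⟩ := q
  simp only [F, Finset.mem_biUnion, Finset.mem_Icc, Finset.mem_image, Prod.mk.injEq]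
  constructor
  · rintro ⟨c', ⟨h1, h2⟩, p', ⟨h3, h4⟩, rfl, rfl⟩
    refine ⟨h1, h3, by omega⟩
  · rintro ⟨h1, h2, h3⟩
    exact ⟨c, ⟨h1, by omega⟩, p, ⟨h2, by omega⟩, rfl, rfl⟩

theorem sum_aux (L : ℕ) : ∑ c ∈ Finset.Icc 1 L, (L - c) = L * (L - 1) / 2 := by
  rw [← Finset.sum_range_id, ← Finset.sum_range_reflect]
  refine Finset.sum_bij (fun c _ => c - 1) ?_ ?_ ?_ ?_
  · intro c hc
    rw [Finset.mem_Icc] at hc
    rw [Finset.mem_range]; omega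
  · intro a ha b hb h
    rw [Finset.mem_Icc] at ha hb
    omega
  · intro b hb
    rw [Finset.mem_range] at hb
    exact ⟨b + 1, by rw [Finset.mem_Icc]; omega, by simp⟩
  · intro c hc
    rw [Finset.mem_Icc] at hc
    omega

theorem card_F (L : ℕ) : (F L).card = L * (L - 1) / 2 := by
  rw [F, Finset.card_biUnion]
  · rw [← sum_aux]
    refine Finset.sum_congr rfl fun c hc => ?_
    rw [Finset.mem_Icc] at hc
    rw [Finset.card_image_of_injective _ (fun a b h => (Prod.mk.inj h).2), Nat.card_Icc]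
    omega
  · intro a _ b _ hab
    rw [Function.onFun, Finset.disjoint_left]
    rintro ⟨c, p⟩ h1 h2
    rw [Finset.mem_image] at h1 h2
    obtain ⟨_, _, h1⟩ := h1
    obtain ⟨_, _, h2⟩ := h2
    exact hab ((Prod.mk.inj h1).1.trans (Prod.mk.inj h2).1.symm)

theorem main : Pool.Agent.KA129.TaskCardTwo := by
  intro L hL
  have h : {q : ℕ × ℕ | (q.1 = 0 ∧ q.2 = L) ∨
    (1 ≤ q.1 ∧ (q.1 + 2) / 2 ≤ q.2 ∧ q.2 + (q.1 + 1) / 2 ≤ L)} =
      ((insert (0, L) (F L) : Finset (ℕ × ℕ)) : Set (ℕ × ℕ)) := by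
    ext ⟨c, p⟩
    rw [Finset.mem_coe, Finset.mem_insert, mem_F, Set.mem_setOf_eq, Prod.mk.injEq]
  rw [h, Set.ncard_coe_finset, Finset.card_insert_of_notMem, card_F]
  rw [mem_F]
  simp

end Pool.Agent.KA129.TaskCardTwo
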