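import Pool.Agent.KA129.Stmts

set_option autoImplicit false

namespace Pool.Agent.KA129.TaskEnds

open Pool.Agent.KA129

theorem main (hLeft : TaskLeft) (hRight : TaskRight) : Pool.Agent.KA129.TaskEnds := by
  intro m k u v hlen hk hK
  rcases Nat.lt_or_ge k 2 with h1 | h2
  · have h0 : k - 1 = 0 := by omega
    rw [h0]
    simp
  · have hj : k - 1 ≤ u.length := by omega
    constructor
    · have hxl : (u.take (k - 1)).length = k - 1 := by
        rw [List.length_take]; omega
      have hx0 : u.take (k - 1) ≠ [] := by
        intro h
        rw [h] at hxl
        simp at hxl
        omega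
      have e1 := hLeft m (u.take (k - 1)) u hx0
      have e2 := hLeft m (u.take (k - 1)) v hx0
      rw [if_pos (List.take_prefix _ _)] at e1
      have e3 := hK (u.take (k - 1)) hx0 (by omega)
      have e4 : (∑ a : Fin m, occ (a :: u.take (k - 1)) u) =
          ∑ a : Fin m, occ (a :: u.take (k - 1)) v := by
        apply Finset.sum_congr rfl
        intro a _
        exact hK _ (List.cons_ne_nil _ _) (by rw [List.length_cons]; omega)
      have h5 : u.take (k - 1) <+: v := by
        by_contra hne
        rw [if_neg hne] at e2
        omega
      have h6 := List.prefix_iff_eq_take.1 h5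
      rw [hxl] at h6
      exact h6
    · have hxl : (u.drop (u.length - (k - 1))).length = k - 1 := by
        rw [List.length_drop]; omega
      have hx0 : u.drop (u.length - (k - 1)) ≠ [] := by
        intro h
        rw [h] at hxl
        simp at hxl
        omega
      have e1 := hRight m (u.drop (u.length - (k - 1))) u hx0
      have e2 := hRight m (u.drop (u.length - (k - 1))) v hx0
      rw [if_pos (List.drop_suffix _ _)] at e1
      have e3 := hK (u.drop (u.length - (k - 1))) hx0 (by omega)
      have e4 : (∑ b : Fin m, occ (u.drop (u.length - (k - 1)) ++ [b]) u) =
          ∑ b : Fin m, occ (u.drop (u.length - (k - 1)) ++ [b]) v := by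
        apply Finset.sum_congr rfl
        intro b _
        apply hK _ (by simp)
        rw [List.length_append, List.length_singleton]
        omega
      have h5 : u.drop (u.length - (k - 1)) <:+ v := by
        by_contra hne
        rw [if_neg hne] at e2
        omega
      have h6 := List.suffix_iff_eq_drop.1 h5
      rw [hxl] at h6
      exact h6

end Pool.Agent.KA129.TaskEnds
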