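import Pool.Agent.KA129.Stmts

set_option autoImplicit false

namespace Pool.Agent.KA129.TaskIdentity

open Pool.Agent.KA129

theorem pow_length {A : Type} (n : ℕ) (w : List A) : (pow n w).length = n * w.length := by
  simp [pow]

theorem class_eq {A : Type} [DecidableEq A] (k M : ℕ) (x y : List A) (hx : x.length = M)
    (hy : y.length = M) :
    {v | v.length = M ∧ KAb k x v} = {v | v.length = M ∧ KAb k y v} ↔ KAb k x y := by
  constructor
  · intro h
    have h1 : y ∈ {v | v.length = M ∧ KAb k y v} := ⟨hy, fun _ _ _ => rfl⟩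
    rw [← h] at h1
    exact h1.2
  · intro h
    ext v
    constructor
    · rintro ⟨h1, h2⟩
      exact ⟨h1, fun z hz hk => (h z hz hk).symm.trans (h2 z hz hk)⟩
    · rintro ⟨h1, h2⟩
      exact ⟨h1, fun z hz hk => (h z hz hk).trans (h2 z hz hk)⟩

theorem main (hP : TaskPow) (hI : TaskImg) : Pool.Agent.KA129.TaskIdentity := by
  intro m k n L hn hk
  have h := hI (List (Fin m)) (Set (List (Fin m))) (Set (List (Fin m))) {w | w.length = L}
    (fun w => {v | v.length = n * L ∧ KAb k (pow n w) v})
    (fun w => {v | v.length = L ∧ KAb k w v}) (fun x hx y hy => by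
      have hx' : x.length = L := hx
      have hy' : y.length = L := hy
      change {v | v.length = n * L ∧ KAb k (pow n x) v} =
        {v | v.length = n * L ∧ KAb k (pow n y) v} ↔
        {v | v.length = L ∧ KAb k x v} = {v | v.length = L ∧ KAb k y v}
      rw [class_eq k (n * L) (pow n x) (pow n y) (by rw [pow_length, hx'])
        (by rw [pow_length, hy']), class_eq k L x y hx' hy']
      exact hP m k n x y hn (hx'.trans hy'.symm) (by rw [hx']; exact hk))
  unfold c numClasses
  have e1 : {C : Set (List (Fin m)) | ∃ w : List (Fin m), (pow n w).length = n * L ∧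
      C = {v | v.length = n * L ∧ KAb k (pow n w) v}} =
      (fun w => {v | v.length = n * L ∧ KAb k (pow n w) v}) '' {w : List (Fin m) | w.length = L} := by
    ext C
    constructor
    · rintro ⟨w, hw, rfl⟩
      rw [pow_length] at hw
      exact ⟨w, Nat.eq_of_mul_eq_mul_left (by omega) hw, rfl⟩
    · rintro ⟨w, hw, rfl⟩
      have hw' : w.length = L := hw
      exact ⟨w, by rw [pow_length, hw'], rfl⟩
  have e2 : {C : Set (List (Fin m)) | ∃ w : List (Fin m), w.length = L ∧
      C = {v | v.length = L ∧ KAb k w v}} =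
      (fun w => {v | v.length = L ∧ KAb k w v}) '' {w : List (Fin m) | w.length = L} := by
    ext C
    constructor
    · rintro ⟨w, hw, rfl⟩
      exact ⟨w, hw, rfl⟩
    · rintro ⟨w, hw, rfl⟩
      exact ⟨w, hw, rfl⟩
  rw [e1, e2]
  exact h

end Pool.Agent.KA129.TaskIdentity
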