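import Pool.Agent.KA129.Stmts

/-! `TaskImTwo` of the blueprint for MP_7e3249_co (helper138). -/

namespace Pool.Agent.KA129.TaskImTwo
open Pool.Agent.KA129

private theorem occ_cons {A : Type} [DecidableEq A] (x w : List A) (h : A) :
    occ x (h :: w) = occ x w + (if x <+: h :: w then 1 else 0) := by
  unfold occ
  rw [List.tails_cons, List.countP_cons]
  simp

private theorem occ1_nil (a : Fin 2) : occ [a] ([] : List (Fin 2)) = 0 := by
  simp [occ]

private theorem occ1_cons (a b : Fin 2) (t : List (Fin 2)) :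
    occ [a] (b :: t) = occ [a] t + (if a = b then 1 else 0) := by
  rw [occ_cons]
  simp [List.cons_prefix_cons]

private theorem occ2_one (a b c : Fin 2) : occ [a, b] [c] = 0 := by
  simp [occ, List.cons_prefix_cons]

private theorem occ2_cons (a b c d : Fin 2) (t : List (Fin 2)) :
    occ [a, b] (c :: d :: t) = occ [a, b] (d :: t) + (if a = c ∧ b = d then 1 else 0) := by
  rw [occ_cons]
  simp [List.cons_prefix_cons]

private theorem chg_one (a : Fin 2) : chg [a] = 0 := by
  simp [chg, occ2_one]

private theorem chg_cons (c d : Fin 2) (t : List (Fin 2)) :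
    chg (c :: d :: t) = chg (d :: t) + (if c = d then 0 else 1) := by
  unfold chg
  rw [occ2_cons, occ2_cons]
  have h : ((if (0 : Fin 2) = c ∧ (1 : Fin 2) = d then 1 else 0) +
      (if (1 : Fin 2) = c ∧ (0 : Fin 2) = d then 1 else 0) : ℕ) = if c = d then 0 else 1 := by
    revert c d; decide
  omega

private theorem ne_succ (a : Fin 2) : a ≠ a + 1 := by revert a; decide

private theorem succ_succ (a : Fin 2) : a + 1 + 1 = a := by revert a; decide

private theorem eq_or (a b : Fin 2) : b = a ∨ b = a + 1 := by revert a b; decide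

private theorem occ_sum (a : Fin 2) (w : List (Fin 2)) :
    occ [a] w + occ [a + 1] w = w.length := by
  induction w with
  | nil => simp [occ1_nil]
  | cons b t ih =>
    rw [occ1_cons, occ1_cons, List.length_cons]
    rcases eq_or a b with h | h
    · subst h
      rw [if_pos rfl, if_neg (ne_succ b).symm]
      omega
    · subst h
      rw [if_pos rfl, if_neg (ne_succ a)]
      omega

private theorem fwd (t : List (Fin 2)) : ∀ a : Fin 2,
    (chg (a :: t) = 0 ∧ occ [a] (a :: t) = (a :: t).length) ∨
    (1 ≤ chg (a :: t) ∧ (chg (a :: t) + 2) / 2 ≤ occ [a] (a :: t) ∧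
      occ [a] (a :: t) + (chg (a :: t) + 1) / 2 ≤ (a :: t).length) := by
  induction t with
  | nil =>
    intro a
    left
    rw [chg_one, occ1_cons, occ1_nil, if_pos rfl]
    exact ⟨rfl, rfl⟩
  | cons b t ih =>
    intro a
    rw [chg_cons, occ1_cons, if_pos rfl, List.length_cons (a := a)]
    have h1 := ih b
    rcases eq_or a b with h | h
    · subst h
      rw [if_pos rfl]
      omega
    · have h2 := occ_sum a (b :: t)
      rw [← h] at h2
      rw [if_neg (by rw [h]; exact ne_succ a)]
      have h3 : 1 ≤ (b :: t).length := by simp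
      omega

private theorem bwd (L : ℕ) : ∀ (a : Fin 2) (c p : ℕ),
    ((c = 0 ∧ p = L + 1) ∨ (1 ≤ c ∧ (c + 2) / 2 ≤ p ∧ p + (c + 1) / 2 ≤ L + 1)) →
    ∃ t : List (Fin 2), t.length = L ∧ chg (a :: t) = c ∧ occ [a] (a :: t) = p := by
  induction L with
  | zero =>
    intro a c p h
    refine ⟨[], rfl, ?_⟩
    rw [chg_one, occ1_cons, occ1_nil, if_pos rfl]
    omega
  | succ L ih =>
    intro a c p h
    by_cases h0 : c = 0 ∨ (c = 1 ∧ 2 ≤ p)
    · obtain ⟨t, h1, h2, h3⟩ := ih a c (p - 1) (by omega)
      refine ⟨a :: t, by simp [h1], ?_, ?_⟩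
      · rw [chg_cons, if_pos rfl, h2, Nat.add_zero]
      · rw [occ1_cons, if_pos rfl, h3]
        omega
    · obtain ⟨t, h1, h2, h3⟩ := ih (a + 1) (c - 1) (L + 2 - p) (by omega)
      refine ⟨(a + 1) :: t, by simp [h1], ?_, ?_⟩
      · rw [chg_cons, if_neg (ne_succ a), h2]
        omega
      · rw [occ1_cons, if_pos rfl]
        have h4 := occ_sum a ((a + 1) :: t)
        rw [h3, List.length_cons, h1] at h4
        omega

theorem main : Pool.Agent.KA129.TaskImTwo := by
  intro L a c p hL
  constructor
  · rintro ⟨w, h1, h2, h3, h4⟩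
    rcases w with _ | ⟨b, t⟩
    · simp at h2
    · rw [List.head?_cons, Option.some.injEq] at h2
      subst h2
      have := fwd t b
      rw [h1, h3, h4] at this
      exact this
  · intro h
    obtain ⟨L, rfl⟩ : ∃ L', L = L' + 1 := ⟨L - 1, by omega⟩
    obtain ⟨t, h1, h2, h3⟩ := bwd L a c p h
    exact ⟨a :: t, by simp [h1], rfl, h2, h3⟩

end Pool.Agent.KA129.TaskImTwo
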