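import Pool.Agent.KA129.Stmts

set_option autoImplicit false

namespace Pool.Agent.KA129.TaskImg

theorem main : Pool.Agent.KA129.TaskImg := by
  intro α β γ S f g h
  refine Set.ncard_congr (fun a ha => g (Classical.choose ha)) ?_ ?_ ?_
  · intro a ha
    exact ⟨Classical.choose ha, (Classical.choose_spec ha).1, rfl⟩
  · intro a b ha hb hab
    have h1 := Classical.choose_spec ha
    have h2 := Classical.choose_spec hb
    have h3 := (h _ h1.1 _ h2.1).2 hab
    rw [h1.2, h2.2] at h3
    exact h3
  · rintro c ⟨x, hx, rfl⟩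
    have hfx : f x ∈ f '' S := ⟨x, hx, rfl⟩
    refine ⟨f x, hfx, ?_⟩
    have h1 := Classical.choose_spec hfx
    exact (h _ h1.1 x hx).1 h1.2

end Pool.Agent.KA129.TaskImg
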