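import Pool.Agent.KA129.Stmts

/-! Blueprint for MP_7e3249_co: occurrences extended to the left. -/

namespace Pool.Agent.KA129.TaskLeft

open Pool.Agent.KA129

theorem occ_nil {m : ℕ} (x : List (Fin m)) (hx : x ≠ []) : occ x [] = 0 := by
  unfold occ
  simp [hx]

theorem occ_cons {m : ℕ} (x w : List (Fin m)) (b : Fin m) :
    occ x (b :: w) = occ x w + (if x <+: b :: w then 1 else 0) := by
  unfold occ
  rw [List.tails_cons, List.countP_cons]
  simp

theorem main : Pool.Agent.KA129.TaskLeft := by
  intro m x w hx
  induction w with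
  | nil =>
    rw [occ_nil x hx, if_neg (by rw [List.prefix_nil]; exact hx)]
    simp only [occ_nil _ (List.cons_ne_nil _ _), Finset.sum_const_zero]
  | cons b w ih =>
    rw [occ_cons, ih]
    have h : ∀ a : Fin m, occ (a :: x) (b :: w) =
        occ (a :: x) w + (if a = b then (if x <+: w then 1 else 0) else 0) := by
      intro a
      rw [occ_cons]
      congr 1
      by_cases hab : a = b
      · rw [if_pos hab]
        by_cases hxw : x <+: w
        · rw [if_pos hxw, if_pos (List.cons_prefix_cons.2 ⟨hab, hxw⟩)]
        · rw [if_neg hxw, if_neg (fun h => hxw (List.cons_prefix_cons.1 h).2)]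
      · rw [if_neg hab, if_neg (fun h => hab (List.cons_prefix_cons.1 h).1)]
    simp only [h, Finset.sum_add_distrib, Finset.sum_ite_eq', Finset.mem_univ, if_true]

end Pool.Agent.KA129.TaskLeft
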