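import Pool.Agent.KA129.Stmts

namespace Pool.Agent.KA129.TaskLow

open Pool.Agent.KA129

private theorem sum_rep {β : Type} (t g : β → ℕ) (l : List β) :
    ((l.flatMap (fun y => List.replicate (t y) y)).map g).sum = (l.map (fun y => t y * g y)).sum := by
  induction l with
  | nil => simp
  | cons a l ih =>
    rw [List.flatMap_cons, List.map_append, List.sum_append, ih, List.map_replicate,
      List.sum_replicate, List.map_cons, List.sum_cons, smul_eq_mul]

private theorem len_rep {β : Type} (t : β → ℕ) (l : List β) :
    (l.flatMap (fun y => List.replicate (t y) y)).length = (l.map t).sum := by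
  induction l with
  | nil => simp
  | cons a l ih =>
    rw [List.flatMap_cons, List.length_append, ih, List.length_replicate, List.map_cons,
      List.sum_cons]

private theorem len_blocks {m k : ℕ} (ys : List (List (Fin (m + 1)))) (h : ∀ y ∈ ys, y.length = k) :
    (ys.flatMap (fun y => y ++ List.replicate (k - 1) 0)).length = ys.length * (k + (k - 1)) := by
  induction ys with
  | nil => simp
  | cons a l ih =>
    rw [List.flatMap_cons, List.length_append, ih (fun y hy => h y (List.mem_cons_of_mem _ hy)),
      List.length_append, List.length_replicate, h a List.mem_cons_self, List.length_cons]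
    ring

private theorem KAb_refl {A : Type} [DecidableEq A] (k : ℕ) (u : List A) : KAb k u u :=
  fun _ _ _ => rfl

theorem main (hY : TaskY) (hB : TaskBlock) (hT : TaskTri) : Pool.Agent.KA129.TaskLow := by
  classical
  intro m k q L hk hL
  obtain ⟨hYm, -⟩ := hY m k hk
  -- the exponents
  let t : ((Y m k) → Fin (q + 1)) → List (Fin (m + 1)) → ℕ := fun f y =>
    if h : y ∈ Y m k then (f ⟨y, h⟩ : ℕ) else 0
  have ht : ∀ f y, t f y ≤ q := by
    intro f y
    by_cases h : y ∈ Y m k
    · simp only [t, h, dite_true]
      exact Nat.lt_succ_iff.1 (f ⟨y, h⟩).2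
    · simp [t, h]
  let ys : ((Y m k) → Fin (q + 1)) → List (List (Fin (m + 1))) := fun f =>
    (Y m k).toList.flatMap (fun y => List.replicate (t f y) y)
  have hys : ∀ f, ∀ y ∈ ys f, y.length = k := by
    intro f y hy
    obtain ⟨a, ha, hya⟩ := List.mem_flatMap.1 hy
    have h1 := List.eq_of_mem_replicate hya
    subst h1
    exact ((hYm y).1 (Finset.mem_toList.1 ha)).1
  have hlen : ∀ f, (ys f).length ≤ q * (Y m k).card := by
    intro f
    rw [show (ys f).length = ((Y m k).toList.map (t f)).sum from len_rep _ _, Finset.sum_map_toList]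
    calc ∑ y ∈ Y m k, t f y ≤ ∑ _y ∈ Y m k, q := Finset.sum_le_sum fun y _ => ht f y
      _ = q * (Y m k).card := by rw [Finset.sum_const, smul_eq_mul, mul_comm]
  let r : ((Y m k) → Fin (q + 1)) → ℕ := fun f => L - ((k - 1) + (ys f).length * (k + (k - 1)))
  have hw : ∀ f, (W k (r f) (ys f)).length = L := by
    intro f
    have h1 : (W k (r f) (ys f)).length = (k - 1) + (ys f).length * (k + (k - 1)) + r f := by
      unfold W
      rw [List.length_append, List.length_append, List.length_replicate, List.length_replicate,
        len_blocks _ (hys f)]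
    rw [h1]
    have h2 : (ys f).length * (k + (k - 1)) ≤ (2 * k - 1) * q * (Y m k).card := by
      have h3 : k + (k - 1) = 2 * k - 1 := by omega
      rw [h3]
      calc (ys f).length * (2 * k - 1) ≤ (q * (Y m k).card) * (2 * k - 1) :=
            Nat.mul_le_mul_right _ (hlen f)
        _ = (2 * k - 1) * q * (Y m k).card := by ring
    show (k - 1) + (ys f).length * (k + (k - 1)) + (L - ((k - 1) + (ys f).length * (k + (k - 1)))) = L
    omega
  have hocc : ∀ f, ∀ z ∈ Y m k, occ z (W k (r f) (ys f)) =
      ∑ y ∈ Y m k, t f y * occ z (y ++ List.replicate (k - 1) 0) := by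
    intro f z hz
    obtain ⟨hz1, hz2⟩ := (hYm z).1 hz
    rw [hB m k (r f) z (ys f) hk hz1 hz2 (hys f)]
    rw [show ((ys f).map (fun y => occ z (y ++ List.replicate (k - 1) 0))).sum =
      ((Y m k).toList.map (fun y => t f y * occ z (y ++ List.replicate (k - 1) 0))).sum from
        sum_rep _ _ _]
    exact Finset.sum_map_toList _ _
  let C : ((Y m k) → Fin (q + 1)) → Set (List (Fin (m + 1))) := fun f =>
    {v | v.length = L ∧ KAb k (W k (r f) (ys f)) v}
  have hinj : Function.Injective C := by
    intro f g hfg
    have hmem : W k (r g) (ys g) ∈ C f := by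
      rw [hfg]
      exact ⟨hw g, KAb_refl _ _⟩
    have hK := hmem.2
    have h1 : ∀ y ∈ Y m k, t f y = t g y := by
      refine hT m k (t f) (t g) hk ?_
      intro z hz
      rw [← hocc f z hz, ← hocc g z hz]
      obtain ⟨hz1, -⟩ := (hYm z).1 hz
      refine hK z ?_ hz1.le
      rintro rfl
      simp at hz1
      omega
    funext ⟨y, hy⟩
    have h2 := h1 y hy
    simp only [t, hy, dite_true] at h2
    exact Fin.ext h2
  have hfin : {C : Set (List (Fin (m + 1))) | ∃ w : List (Fin (m + 1)), w.length = L ∧
      C = {v | v.length = L ∧ KAb k w v}}.Finite := by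
    refine ((List.finite_length_eq (Fin (m + 1)) L).image
      (fun w => {v | v.length = L ∧ KAb k w v})).subset ?_
    rintro D ⟨w, hw1, rfl⟩
    exact ⟨w, hw1, rfl⟩
  have hsub : C '' Set.univ ⊆ {C : Set (List (Fin (m + 1))) | ∃ w : List (Fin (m + 1)),
      w.length = L ∧ C = {v | v.length = L ∧ KAb k w v}} := by
    rintro D ⟨f, -, rfl⟩
    exact ⟨W k (r f) (ys f), hw f, rfl⟩
  have hcard : (C '' Set.univ).ncard = (q + 1) ^ (Y m k).card := by
    rw [Set.ncard_image_of_injective _ hinj, Set.ncard_univ, Nat.card_eq_fintype_card,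
      Fintype.card_fun, Fintype.card_fin, Fintype.card_coe]
  rw [← hcard]
  exact Set.ncard_le_ncard hsub hfin

end Pool.Agent.KA129.TaskLow
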