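import Pool.Agent.KA129.Stmts

namespace Pool.Agent.KA129.TaskNumTwo

theorem occ_single (w : List (Fin 2)) : occ [0] w + occ [1] w = w.length := by
  induction w with
  | nil => simp [occ]
  | cons a w ih =>
    have h : ∀ b : Fin 2, occ [b] (a :: w) = occ [b] w + (if b = a then 1 else 0) := by
      intro b
      simp [occ, List.tails, List.countP_cons, List.cons_prefix_cons]
    rw [h, h, List.length_cons, ← ih]
    fin_cases a <;> simp <;> ring

theorem main (hI : TaskImg) (hS : TaskSigTwo) (hIm : TaskImTwo) (hC : TaskCardTwo) :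
    Pool.Agent.KA129.TaskNumTwo := by
  intro L hL
  set S : Set (List (Fin 2)) := {w | w.length = L} with hSdef
  let f : List (Fin 2) → Set (List (Fin 2)) := fun w => {v | v.length = L ∧ KAb 2 w v}
  let hd : List (Fin 2) → Fin 2 := fun w => w.head?.getD 0
  let g : List (Fin 2) → Fin 2 × (ℕ × ℕ) := fun w => (hd w, (chg w, occ [hd w] w))
  have hne : ∀ w ∈ S, w ≠ [] := by
    rintro w hw rfl
    have : (0 : ℕ) = L := hw
    omega
  have hhd : ∀ w ∈ S, w.head? = some (hd w) := by
    intro w hw
    cases w with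
    | nil => exact absurd rfl (hne _ hw)
    | cons a w => rfl
  have hfK : ∀ w ∈ S, ∀ v ∈ S, (f w = f v ↔ KAb 2 w v) := by
    intro w hw v hv
    constructor
    · intro h
      have h1 : v ∈ f v := ⟨hv, fun x _ _ => rfl⟩
      rw [← h] at h1
      exact h1.2
    · intro h
      ext u
      constructor
      · rintro ⟨h1, h2⟩
        exact ⟨h1, fun x hx hx' => (h x hx hx').symm.trans (h2 x hx hx')⟩
      · rintro ⟨h1, h2⟩
        exact ⟨h1, fun x hx hx' => (h x hx hx').trans (h2 x hx hx')⟩
  have hfg : ∀ w ∈ S, ∀ v ∈ S, (f w = f v ↔ g w = g v) := by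
    intro w hw v hv
    have hlen : w.length = v.length := by
      rw [show w.length = L from hw, show v.length = L from hv]
    rw [hfK w hw v hv]
    constructor
    · intro h
      obtain ⟨h1, h2, h3⟩ := (hS w v (hne w hw) hlen).1 h
      have h4 : hd w = hd v := by
        rw [hhd w hw, hhd v hv] at h1
        exact Option.some.inj h1
      show (hd w, (chg w, occ [hd w] w)) = (hd v, (chg v, occ [hd v] v))
      rw [h2, h4, h [hd v] (by simp) (by simp)]
    · intro h
      have h1 : hd w = hd v := congrArg Prod.fst h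
      have h2 : chg w = chg v := congrArg (fun q => q.2.1) h
      have h3 : occ [hd w] w = occ [hd v] v := congrArg (fun q => q.2.2) h
      rw [← h1] at h3
      apply (hS w v (hne w hw) hlen).2
      refine ⟨by rw [hhd w hw, hhd v hv, h1], h2, ?_⟩
      have e1 := occ_single w
      have e2 := occ_single v
      rcases Fin.exists_fin_two.1 ⟨hd w, rfl⟩ with h0 | h0
      · rw [h0] at h3; omega
      · rw [h0] at h3; exact h3
  have hnum : numClasses 2 2 L = (f '' S).ncard := by
    unfold numClasses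
    congr 1
    ext C
    constructor
    · rintro ⟨w, hw, rfl⟩; exact ⟨w, hw, rfl⟩
    · rintro ⟨w, hw, rfl⟩; exact ⟨w, hw, rfl⟩
  rw [hnum, hI _ _ _ S f g hfg]
  set T : Set (ℕ × ℕ) := {q : ℕ × ℕ | (q.1 = 0 ∧ q.2 = L) ∨
    (1 ≤ q.1 ∧ (q.1 + 2) / 2 ≤ q.2 ∧ q.2 + (q.1 + 1) / 2 ≤ L)} with hT
  have himg : g '' S = (Set.univ : Set (Fin 2)) ×ˢ T := by
    ext ⟨a, c, p⟩
    constructor
    · rintro ⟨w, hw, h⟩
      have h1 : hd w = a := congrArg Prod.fst h
      have h2 : chg w = c := congrArg (fun q => q.2.1) h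
      have h3 : occ [hd w] w = p := congrArg (fun q => q.2.2) h
      refine ⟨trivial, ?_⟩
      have h4 := hhd w hw
      rw [h1] at h4 h3
      exact (hIm L a c p hL).1 ⟨w, hw, h4, h2, h3⟩
    · rintro ⟨-, h⟩
      obtain ⟨w, hw, h4, h2, h3⟩ := (hIm L a c p hL).2 h
      refine ⟨w, hw, ?_⟩
      have h5 : hd w = a := by
        have := hhd w hw
        rw [h4] at this
        exact (Option.some.inj this).symm
      show (hd w, (chg w, occ [hd w] w)) = (a, (c, p))
      rw [h5, h2, h3]
  rw [himg, Set.ncard_prod, hC L hL]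
  simp only [Set.ncard_univ, Nat.card_eq_fintype_card, Fintype.card_fin]
  have hev : L * (L - 1) / 2 * 2 = L * (L - 1) := by
    apply Nat.div_mul_cancel
    obtain ⟨M, rfl⟩ : ∃ M, L = M + 1 := ⟨L - 1, by omega⟩
    have := Nat.even_mul_succ_self M
    rw [Nat.add_sub_cancel, mul_comm]
    exact this.two_dvd
  obtain ⟨M, rfl⟩ : ∃ M, L = M + 1 := ⟨L - 1, by omega⟩
  rw [Nat.add_sub_cancel] at hev ⊢
  nlinarith

end Pool.Agent.KA129.TaskNumTwo
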