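import Pool.Agent.KA129.Stmts

set_option autoImplicit false

namespace Pool.Agent.KA129.TaskPow

private lemma pow_s {A : Type} (n : ℕ) (u : List A) : pow (n + 1) u = u ++ pow n u := by
  simp [pow, List.replicate_succ]

private lemma pow_s' {A : Type} (n : ℕ) (u : List A) : pow (n + 1) u = pow n u ++ u := by
  simp [pow, List.replicate_succ']

private lemma pow_len {A : Type} (n : ℕ) (u : List A) : (pow n u).length = n * u.length := by
  simp [pow]

private lemma take_pow {A : Type} (n j : ℕ) (u : List A) (hn : 1 ≤ n) (hj : j ≤ u.length) :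
    (pow n u).take j = u.take j := by
  obtain ⟨n, rfl⟩ := Nat.exists_eq_add_of_le' hn
  rw [pow_s, List.take_append_of_le_length hj]

private lemma drop_pow {A : Type} (n j : ℕ) (u : List A) (hn : 1 ≤ n) (hj : j ≤ u.length) :
    (pow n u).drop ((pow n u).length - j) = u.drop (u.length - j) := by
  obtain ⟨n, rfl⟩ := Nat.exists_eq_add_of_le' hn
  rw [pow_s', List.length_append, List.drop_append]
  have h1 : (pow n u).length + u.length - j - (pow n u).length = u.length - j := by omega
  rw [h1, List.drop_eq_nil_of_le (by omega), List.nil_append]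

private def cr {m : ℕ} (x u : List (Fin m)) : ℕ :=
  occ x (u.drop (u.length - (x.length - 1)) ++ u.take (x.length - 1))

private lemma occ_pow (hA : TaskAppend) {m : ℕ} (x u : List (Fin m)) (hx : x ≠ []) (hl : x.length ≤ u.length + 1)
    (n : ℕ) : occ x (pow (n + 1) u) = (n + 1) * occ x u + n * cr x u := by
  induction n with
  | zero =>
    have : pow (0 + 1) u = u := by simp [pow]
    rw [this]
    ring
  | succ n ih =>
    rw [pow_s, hA m x u (pow (n + 1) u) hx, ih, take_pow (n + 1) (x.length - 1) u (by omega) (by omega)]
    show _ + _ + cr x u = _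
    ring

private lemma cr_eq {m k : ℕ} (x u v : List (Fin m)) (hl : u.length = v.length) (hk : k ≤ u.length + 1)
    (hx : x.length ≤ k) (h1 : u.take (k - 1) = v.take (k - 1))
    (h2 : u.drop (u.length - (k - 1)) = v.drop (v.length - (k - 1))) : cr x u = cr x v := by
  unfold cr
  have e1 : u.take (x.length - 1) = v.take (x.length - 1) := by
    have := congrArg (fun l => l.take (x.length - 1)) h1
    simp only [List.take_take] at this
    rwa [min_eq_left (by omega)] at this
  have e2 : u.drop (u.length - (x.length - 1)) = v.drop (v.length - (x.length - 1)) := by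
    have := congrArg (fun l => l.drop ((k - 1) - (x.length - 1))) h2
    simp only [List.drop_drop] at this
    have a1 : u.length - (k - 1) + (k - 1 - (x.length - 1)) = u.length - (x.length - 1) := by omega
    have a2 : v.length - (k - 1) + (k - 1 - (x.length - 1)) = v.length - (x.length - 1) := by omega
    rwa [a1, a2] at this
  rw [e1, e2]

theorem main (hA : TaskAppend) (hE : TaskEnds) : Pool.Agent.KA129.TaskPow := by
  intro m k n u v hn hl hk
  obtain ⟨n, rfl⟩ := Nat.exists_eq_add_of_le' hn
  have hlp : (pow (n + 1) u).length = (pow (n + 1) v).length := by rw [pow_len, pow_len, hl]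
  constructor
  · intro h
    have hkp : k ≤ (pow (n + 1) u).length + 1 := by
      rw [pow_len]
      nlinarith
    obtain ⟨h1, h2⟩ := hE m k _ _ hlp hkp h
    rw [take_pow (n + 1) (k - 1) u (by omega) (by omega), take_pow (n + 1) (k - 1) v (by omega) (by omega)] at h1
    rw [drop_pow (n + 1) (k - 1) u (by omega) (by omega), drop_pow (n + 1) (k - 1) v (by omega) (by omega)] at h2
    intro x hx hxl
    have h3 := h x hx hxl
    rw [occ_pow hA x u hx (by omega), occ_pow hA x v hx (by omega), cr_eq x u v hl hk hxl h1 h2] at h3
    have h4 : (n + 1) * occ x u = (n + 1) * occ x v := by omega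
    exact Nat.eq_of_mul_eq_mul_left (by omega) h4
  · intro h
    obtain ⟨h1, h2⟩ := hE m k u v hl hk h
    intro x hx hxl
    rw [occ_pow hA x u hx (by omega), occ_pow hA x v hx (by omega), cr_eq x u v hl hk hxl h1 h2, h x hx hxl]

end Pool.Agent.KA129.TaskPow
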