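import Pool.Agent.KA129.Stmts

/-! MP_7e3249_co, task Right (helper204). -/

namespace Pool.Agent.KA129.TaskRight

open Pool.Agent.KA129

private theorem occ_cons {m : ℕ} (x : List (Fin m)) (a : Fin m) (w : List (Fin m)) :
    occ x (a :: w) = occ x w + (if x <+: a :: w then 1 else 0) := by
  unfold occ
  rw [List.tails_cons, List.countP_cons]
  simp

private theorem key {m : ℕ} (x l : List (Fin m)) :
    (if x <+: l then 1 else 0) =
      (∑ b : Fin m, (if x ++ [b] <+: l then 1 else 0)) + (if x = l then 1 else 0) := by
  by_cases h : x <+: l
  · obtain ⟨s, rfl⟩ := h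
    cases s with
    | nil =>
      have h1 : ∀ b : Fin m, ¬ (x ++ [b] <+: x ++ []) := by
        intro b hb
        have := hb.length_le
        simp at this
      simp only [List.append_nil] at h1 ⊢
      simp [h1]
    | cons c s =>
      have h1 : ∀ b : Fin m, (x ++ [b] <+: x ++ c :: s) ↔ b = c := by
        intro b
        rw [List.prefix_append_right_inj]
        simp
      have h2 : ¬ (x = x ++ c :: s) := by
        intro h
        have := congrArg List.length h
        simp at this
      simp [h1, h2]
  · have h1 : ∀ b : Fin m, ¬ (x ++ [b] <+: l) := fun b hb =>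
      h ((List.prefix_append x [b]).trans hb)
    have h2 : ¬ (x = l) := fun e => h (e ▸ List.prefix_rfl)
    simp [h, h1, h2]

theorem main : Pool.Agent.KA129.TaskRight := by
  intro m x w hx
  induction w with
  | nil =>
    have h1 : ∀ b : Fin m, ¬ (x ++ [b] = []) := fun b => by simp
    simp [occ, hx]
  | cons a w ih =>
    rw [occ_cons, ih]
    have e1 : ∀ b : Fin m, occ (x ++ [b]) (a :: w) =
        occ (x ++ [b]) w + (if x ++ [b] <+: a :: w then 1 else 0) := fun b => occ_cons _ _ _
    simp only [e1, Finset.sum_add_distrib]
    rw [key x (a :: w)]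
    have e2 : (if x <:+ a :: w then 1 else 0) =
        (if x = a :: w then 1 else 0) + (if x <:+ w then 1 else 0) := by
      by_cases h1 : x = a :: w
      · have h2 : ¬ (x <:+ w) := by
          intro h
          have := h.length_le
          rw [h1] at this
          simp at this
        rw [if_pos h1, if_neg h2, if_pos (List.suffix_cons_iff.mpr (Or.inl h1))]
      · by_cases h2 : x <:+ w
        · rw [if_neg h1, if_pos h2, if_pos (List.suffix_cons_iff.mpr (Or.inr h2))]
        · have h3 : ¬ (x <:+ a :: w) := fun h => (List.suffix_cons_iff.mp h).elim h1 h2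
          rw [if_neg h1, if_neg h2, if_neg h3]
    rw [e2]
    ring

end Pool.Agent.KA129.TaskRight
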