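import Pool.Agent.KA129.Stmts

set_option autoImplicit false

namespace Pool.Agent.KA129.TaskSig

open Pool.Agent.KA129

lemma dec {m : ℕ} : ∀ y : List (Fin (m + 1)), (∃ a ∈ y, a ≠ 0) →
    ∃ (j : ℕ) (w : List (Fin (m + 1))), w ≠ [] ∧ w.head? ≠ some 0 ∧
      y = List.replicate j 0 ++ w := by
  intro y
  induction y with
  | nil => rintro ⟨a, ha, _⟩; simp at ha
  | cons c t ih =>
    rintro ⟨a, ha, ha0⟩
    by_cases hc : c = 0
    · have hat : a ∈ t := by
        rcases List.mem_cons.mp ha with h | h
        · exact absurd (h.trans hc) ha0
        · exact h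
      obtain ⟨j, w, h1, h2, h3⟩ := ih ⟨a, hat, ha0⟩
      refine ⟨j + 1, w, h1, h2, ?_⟩
      rw [List.replicate_succ, List.cons_append, ← h3, hc]
    · refine ⟨0, c :: t, by simp, ?_, by simp⟩
      simp only [List.head?_cons, ne_eq, Option.some.injEq]
      exact hc

lemma total {m : ℕ} (u : List (Fin (m + 1))) : ∑ a : Fin (m + 1), occ [a] u = u.length := by
  induction u with
  | nil => simp [occ]
  | cons c t ih =>
    have h : ∀ a : Fin (m + 1), occ [a] (c :: t) = occ [a] t + (if a = c then 1 else 0) := by
      intro a
      unfold occ
      rw [List.tails_cons, List.countP_cons]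
      congr 1
      simp
    simp only [h, Finset.sum_add_distrib, ih, Finset.sum_ite_eq', Finset.mem_univ, if_true,
      List.length_cons]

theorem main (hR : TaskRight) (hL : TaskLeft) : Pool.Agent.KA129.TaskSig := by
  intro m k u v hk huv hku hpre hsuf hy
  have suf : ∀ x : List (Fin (m + 1)), x.length + 1 ≤ k → (x <:+ u ↔ x <:+ v) := by
    intro x hx
    have h1 : ∀ w : List (Fin (m + 1)), k ≤ w.length + 1 → w.drop (w.length - x.length) =
        (w.drop (w.length - (k - 1))).drop ((k - 1) - x.length) := by
      intro w hw
      rw [List.drop_drop]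
      congr 1
      omega
    rw [List.suffix_iff_eq_drop, List.suffix_iff_eq_drop, h1 u hku, h1 v (huv ▸ hku), hsuf]
  have pre : ∀ x : List (Fin (m + 1)), x.length + 1 ≤ k → (x <+: u ↔ x <+: v) := by
    intro x hx
    have h1 : ∀ w : List (Fin (m + 1)), w.take x.length = (w.take (k - 1)).take x.length := by
      intro w
      rw [List.take_take]
      congr 1
      omega
    rw [List.prefix_iff_eq_take, List.prefix_iff_eq_take, h1 u, h1 v, hpre]
  have hsi : ∀ x : List (Fin (m + 1)), x.length + 1 ≤ k →
      (if x <:+ u then (1 : ℕ) else 0) = if x <:+ v then 1 else 0 :=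
    fun x hx => if_congr (suf x hx) rfl rfl
  have hpi : ∀ x : List (Fin (m + 1)), x.length + 1 ≤ k →
      (if x <+: u then (1 : ℕ) else 0) = if x <+: v then 1 else 0 :=
    fun x hx => if_congr (pre x hx) rfl rfl
  -- step 1
  have A : ∀ j : ℕ, ∀ w : List (Fin (m + 1)), w ≠ [] → w.head? ≠ some 0 → j + w.length = k →
      occ (List.replicate j 0 ++ w) u = occ (List.replicate j 0 ++ w) v := by
    intro j
    induction j with
    | zero =>
      intro w hw hh hl
      simp only [List.replicate_zero, List.nil_append]
      exact hy w (by omega) hh
    | succ j ih =>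
      intro w hw hh hl
      set z := List.replicate j 0 ++ w with hz
      have hzl : z.length + 1 = k := by
        rw [hz, List.length_append, List.length_replicate]; omega
      have hzne : z ≠ [] := by
        intro h
        rw [h] at hz
        have := List.append_eq_nil_iff.mp hz.symm
        exact hw this.2
      have e : List.replicate (j + 1) 0 ++ w = (0 : Fin (m + 1)) :: z := by
        rw [List.replicate_succ, List.cons_append, hz]
      rw [e]
      have hLu := hL (m + 1) z u hzne
      have hLv := hL (m + 1) z v hzne
      have hRu := hR (m + 1) z u hzne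
      have hRv := hR (m + 1) z v hzne
      have hb : ∑ b : Fin (m + 1), occ (z ++ [b]) u = ∑ b : Fin (m + 1), occ (z ++ [b]) v := by
        apply Finset.sum_congr rfl
        intro b _
        rw [hz, List.append_assoc]
        apply ih
        · simp
        · rw [List.head?_append_of_ne_nil _ hw]
          exact hh
        · rw [List.length_append, List.length_singleton]; omega
      have ha : ∑ i : Fin m, occ (i.succ :: z) u = ∑ i : Fin m, occ (i.succ :: z) v := by
        apply Finset.sum_congr rfl
        intro i _
        apply hy
        · rw [List.length_cons]; exact hzl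
        · simp only [List.head?_cons, ne_eq, Option.some.injEq]
          exact Fin.succ_ne_zero i
      rw [Fin.sum_univ_succ] at hLu hLv
      rw [hsi z hzl.le] at hRu
      rw [hpi z hzl.le] at hLu
      omega
  -- step 2
  have B : ∀ d : ℕ, ∀ x : List (Fin (m + 1)), x.length + d = k → (∃ a ∈ x, a ≠ 0) →
      occ x u = occ x v := by
    intro d
    induction d with
    | zero =>
      intro x hx hn
      obtain ⟨j, w, h1, h2, h3⟩ := dec x hn
      rw [h3]
      apply A j w h1 h2
      have := congrArg List.length h3
      rw [List.length_append, List.length_replicate] at this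
      omega
    | succ d ih =>
      intro x hx hn
      have hxne : x ≠ [] := by
        rintro rfl
        obtain ⟨a, ha, _⟩ := hn
        simp at ha
      rw [hR (m + 1) x u hxne, hR (m + 1) x v hxne, hsi x (by omega)]
      congr 1
      apply Finset.sum_congr rfl
      intro b _
      apply ih
      · rw [List.length_append, List.length_singleton]; omega
      · obtain ⟨a, ha, ha0⟩ := hn
        exact ⟨a, List.mem_append_left _ ha, ha0⟩
  -- step 3
  have C0 : occ [0] u = occ [0] v := by
    have h1 := total u
    have h2 := total v
    rw [Fin.sum_univ_succ] at h1 h2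
    have h3 : ∑ i : Fin m, occ [i.succ] u = ∑ i : Fin m, occ [i.succ] v := by
      apply Finset.sum_congr rfl
      intro i _
      apply B (k - 1)
      · simp only [List.length_singleton]; omega
      · exact ⟨i.succ, by simp, Fin.succ_ne_zero i⟩
    omega
  have C : ∀ i : ℕ, i + 1 ≤ k →
      occ (List.replicate (i + 1) (0 : Fin (m + 1))) u = occ (List.replicate (i + 1) 0) v := by
    intro i
    induction i with
    | zero =>
      intro _
      simpa using C0
    | succ i ih =>
      intro hi
      have hxne : List.replicate (i + 1) (0 : Fin (m + 1)) ≠ [] := by simp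
      have hRu := hR (m + 1) _ u hxne
      have hRv := hR (m + 1) _ v hxne
      rw [Fin.sum_univ_succ] at hRu hRv
      have e : List.replicate (i + 1) (0 : Fin (m + 1)) ++ [0] =
          List.replicate (i + 1 + 1) 0 := by
        rw [List.replicate_succ' (n := i + 1)]
      rw [e] at hRu hRv
      have h3 : ∑ j : Fin m, occ (List.replicate (i + 1) (0 : Fin (m + 1)) ++ [j.succ]) u =
          ∑ j : Fin m, occ (List.replicate (i + 1) (0 : Fin (m + 1)) ++ [j.succ]) v := by
        apply Finset.sum_congr rfl
        intro j _
        apply B (k - (i + 2))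
        · rw [List.length_append, List.length_replicate, List.length_singleton]; omega
        · exact ⟨j.succ, by simp, Fin.succ_ne_zero j⟩
      have h4 := ih (by omega)
      rw [hsi _ (by rw [List.length_replicate]; omega)] at hRu
      omega
  intro x hx hxk
  by_cases hn : ∃ a ∈ x, a ≠ 0
  · exact B (k - x.length) x (by omega) hn
  · push Not at hn
    have hxr : x = List.replicate x.length 0 := List.eq_replicate_of_mem hn
    have hlen : 0 < x.length := List.length_pos_iff.mpr hx
    obtain ⟨i, hi⟩ : ∃ i, x.length = i + 1 := ⟨x.length - 1, by omega⟩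
    rw [hxr, hi]
    exact C i (by omega)

end Pool.Agent.KA129.TaskSig
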