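import Pool.Agent.KA129.Stmts

/-!
# `TaskSigTwo` (from `TaskRight` and `TaskLeft`)
-/

namespace Pool.Agent.KA129.TaskSigTwo

open Pool.Agent.KA129

theorem occ_cons (a c : Fin 2) (w : List (Fin 2)) :
    occ [a] (c :: w) = occ [a] w + (if a = c then 1 else 0) := by
  unfold occ
  rw [List.tails_cons, List.countP_cons]
  congr 1
  by_cases h : a = c
  · subst h
    simp
  · simp [h]

theorem occ_len (w : List (Fin 2)) : occ [0] w + occ [1] w = w.length := by
  induction w with
  | nil => simp [occ]
  | cons c w ih =>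
    rw [occ_cons, occ_cons, List.length_cons]
    have hc : c = 0 ∨ c = 1 := by
      fin_cases c
      · exact Or.inl rfl
      · exact Or.inr rfl
    rcases hc with rfl | rfl
    · simp
      omega
    · simp
      omega

theorem pre (a : Fin 2) (w : List (Fin 2)) : [a] <+: w ↔ w.head? = some a := by
  cases w with
  | nil => simp
  | cons c w =>
    rw [List.cons_prefix_cons]
    simp [eq_comm]

theorem suf (w : List (Fin 2)) (hw : w ≠ []) :
    ([0] <:+ w ∧ ¬ [1] <:+ w) ∨ (¬ [0] <:+ w ∧ [1] <:+ w) := by
  rcases List.eq_nil_or_concat w with h | ⟨l, b, h⟩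
  · exact absurd h hw
  · have h' : w = l ++ [b] := by rw [h, List.concat_eq_append]
    have key : ∀ a : Fin 2, [a] <:+ w → a = b := by
      rintro a ⟨t, ht⟩
      rw [h'] at ht
      have := List.append_inj_right' ht rfl
      simpa using this
    have hb : [b] <:+ w := ⟨l, h'.symm⟩
    have hc : b = 0 ∨ b = 1 := by
      fin_cases b
      · exact Or.inl rfl
      · exact Or.inr rfl
    rcases hc with rfl | rfl
    · exact Or.inl ⟨hb, fun h1 => absurd (key 1 h1) (by decide)⟩
    · exact Or.inr ⟨fun h1 => absurd (key 0 h1) (by decide), hb⟩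

theorem eqs (hR : Pool.Agent.KA129.TaskRight) (hL : Pool.Agent.KA129.TaskLeft)
    (w : List (Fin 2)) (hw : w ≠ []) :
    ∃ P0 P1 S0 S1 : ℕ, P0 + P1 = 1 ∧ S0 + S1 = 1 ∧ (P0 = 1 ↔ w.head? = some 0) ∧
      occ [0] w = occ [0, 0] w + occ [0, 1] w + S0 ∧
      occ [1] w = occ [1, 0] w + occ [1, 1] w + S1 ∧
      occ [0] w = occ [0, 0] w + occ [1, 0] w + P0 ∧
      occ [1] w = occ [0, 1] w + occ [1, 1] w + P1 := by
  have r0 := hR 2 [0] w (by simp)
  have r1 := hR 2 [1] w (by simp)
  have l0 := hL 2 [0] w (by simp)
  have l1 := hL 2 [1] w (by simp)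
  rw [Fin.sum_univ_two] at r0 r1 l0 l1
  simp only [List.cons_append, List.nil_append] at r0 r1
  refine ⟨if [0] <+: w then 1 else 0, if [1] <+: w then 1 else 0, if [0] <:+ w then 1 else 0,
    if [1] <:+ w then 1 else 0, ?_, ?_, ?_, r0, r1, l0, l1⟩
  · simp only [pre]
    cases w with
    | nil => exact absurd rfl hw
    | cons c w =>
      have hc : c = 0 ∨ c = 1 := by
        fin_cases c
        · exact Or.inl rfl
        · exact Or.inr rfl
      rcases hc with rfl | rfl <;> simp
  · rcases suf w hw with ⟨h1, h2⟩ | ⟨h1, h2⟩ <;> simp [h1, h2]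
  · simp only [pre]
    by_cases h : w.head? = some 0 <;> simp [h]

theorem head_eq (u v : List (Fin 2)) (hu : u ≠ []) (hv : v ≠ []) :
    u.head? = v.head? ↔ (u.head? = some 0 ↔ v.head? = some 0) := by
  cases u with
  | nil => exact absurd rfl hu
  | cons c u =>
    cases v with
    | nil => exact absurd rfl hv
    | cons d v =>
      simp only [List.head?_cons, Option.some.injEq]
      have key : ∀ c d : Fin 2, c = d ↔ (c = 0 ↔ d = 0) := by decide
      exact key c d

theorem main (hR : Pool.Agent.KA129.TaskRight) (hL : Pool.Agent.KA129.TaskLeft) :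
    Pool.Agent.KA129.TaskSigTwo := by
  intro u v hu huv
  have hv : v ≠ [] := by
    rintro rfl
    exact hu (List.length_eq_zero_iff.1 huv)
  obtain ⟨P0, P1, S0, S1, a1, a2, a3, a4, a5, a6, a7⟩ := eqs hR hL u hu
  obtain ⟨P0', P1', S0', S1', b1, b2, b3, b4, b5, b6, b7⟩ := eqs hR hL v hv
  have lu := occ_len u
  have lv := occ_len v
  constructor
  · intro h
    have h0 := h [0] (by simp) (by simp)
    have h1 := h [1] (by simp) (by simp)
    have h00 := h [0, 0] (by simp) (by simp)
    have h01 := h [0, 1] (by simp) (by simp)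
    have h10 := h [1, 0] (by simp) (by simp)
    have h11 := h [1, 1] (by simp) (by simp)
    refine ⟨(head_eq u v hu hv).2 ?_, ?_, h1⟩
    · rw [← a3, ← b3]
      omega
    · unfold chg
      omega
  · rintro ⟨h1, h2, h3⟩
    unfold chg at h2
    have h4 : P0 = P0' := by
      have := (head_eq u v hu hv).1 h1
      rw [← a3, ← b3] at this
      omega
    have e00 : occ [0, 0] u = occ [0, 0] v := by omega
    have e01 : occ [0, 1] u = occ [0, 1] v := by omega
    have e10 : occ [1, 0] u = occ [1, 0] v := by omega
    have e11 : occ [1, 1] u = occ [1, 1] v := by omega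
    have e0 : occ [0] u = occ [0] v := by omega
    intro x hx hx2
    match x, hx, hx2 with
    | [a], _, _ =>
      have hc : a = 0 ∨ a = 1 := by
        fin_cases a
        · exact Or.inl rfl
        · exact Or.inr rfl
      rcases hc with rfl | rfl
      · exact e0
      · exact h3
    | [a, b], _, _ =>
      have hc : a = 0 ∨ a = 1 := by
        fin_cases a
        · exact Or.inl rfl
        · exact Or.inr rfl
      have hd : b = 0 ∨ b = 1 := by
        fin_cases b
        · exact Or.inl rfl
        · exact Or.inr rfl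
      rcases hc with rfl | rfl <;> rcases hd with rfl | rfl
      · exact e00
      · exact e01
      · exact e10
      · exact e11
    | a :: b :: c :: l, _, h =>
      simp at h

end Pool.Agent.KA129.TaskSigTwo
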