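import Pool.Agent.KA129.Stmts

namespace Pool.Agent.KA129.TaskTheta

open Asymptotics Filter

theorem main (hY : Pool.Agent.KA129.TaskY) (hId : Pool.Agent.KA129.TaskIdentity)
    (hLow : Pool.Agent.KA129.TaskLow) (hUp : Pool.Agent.KA129.TaskUp) :
    Pool.Agent.KA129.TaskTheta := by
  intro m k n hk hn
  obtain ⟨d, hd⟩ : ∃ d, d = m * (m + 1) ^ (k - 1) := ⟨_, rfl⟩
  have hc : (Y m k).card = d := by rw [hd]; exact (hY m k hk).2
  rw [← hd]
  have hid : ∀ L, k ≤ L → c (m + 1) k n (n * L) = numClasses (m + 1) k L :=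
    fun L h => hId (m + 1) k n L hn (by omega)
  constructor
  · refine IsBigO.of_bound ((((m + 1) ^ (k - 1)) ^ 2 * 2 ^ d : ℕ) : ℝ) ?_
    filter_upwards [Filter.eventually_ge_atTop (k + 1)] with L hL
    have h1 := hUp m k L hk (by omega)
    rw [hc] at h1
    have h2 : (L + 1) ^ d ≤ (2 * L) ^ d := Nat.pow_le_pow_left (by omega) d
    have h3 : numClasses (m + 1) k L ≤ ((m + 1) ^ (k - 1)) ^ 2 * 2 ^ d * L ^ d := by
      calc numClasses (m + 1) k L ≤ ((m + 1) ^ (k - 1)) ^ 2 * (L + 1) ^ d := h1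
        _ ≤ ((m + 1) ^ (k - 1)) ^ 2 * (2 * L) ^ d := Nat.mul_le_mul_left _ h2
        _ = ((m + 1) ^ (k - 1)) ^ 2 * 2 ^ d * L ^ d := by rw [mul_pow, mul_assoc]
    rw [hid L (by omega), Real.norm_of_nonneg (by positivity), Real.norm_of_nonneg (by positivity)]
    exact_mod_cast h3
  · refine IsBigO.of_bound (((2 * ((2 * k - 1) * d)) ^ d : ℕ) : ℝ) ?_
    filter_upwards [Filter.eventually_ge_atTop (2 * k + 1)] with L hL
    have h3 : L ^ d ≤ (2 * ((2 * k - 1) * d)) ^ d * numClasses (m + 1) k L := by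
      obtain ⟨D, hD⟩ : ∃ D, D = (2 * k - 1) * d := ⟨_, rfl⟩
      obtain ⟨q, hq⟩ : ∃ q, q = (L - (k - 1)) / D := ⟨_, rfl⟩
      have h6 : D * q ≤ L - (k - 1) := by rw [hq]; exact Nat.mul_div_le _ _
      have h1 := hLow m k q L hk (by
        rw [hc]
        have e : (2 * k - 1) * q * d = D * q := by rw [hD]; ring
        omega)
      rw [hc] at h1
      rw [← hD]
      rcases Nat.eq_zero_or_pos d with h0 | h0
      · rw [h0] at h1 ⊢
        simpa using h1
      · have hDpos : 0 < D := by rw [hD]; exact Nat.mul_pos (by omega) h0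
        have h4 : L - (k - 1) < D * (q + 1) := by rw [hq]; exact Nat.lt_mul_div_succ _ hDpos
        have h5 : L ≤ 2 * D * (q + 1) := by
          have : 2 * D * (q + 1) = 2 * (D * (q + 1)) := by ring
          omega
        calc L ^ d ≤ (2 * D * (q + 1)) ^ d := Nat.pow_le_pow_left h5 d
          _ = (2 * D) ^ d * (q + 1) ^ d := mul_pow _ _ _
          _ ≤ (2 * D) ^ d * numClasses (m + 1) k L := Nat.mul_le_mul_left _ h1
    rw [hid L (by omega), Real.norm_of_nonneg (by positivity), Real.norm_of_nonneg (by positivity)]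
    exact_mod_cast h3

end Pool.Agent.KA129.TaskTheta
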