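import Pool.Agent.KA129.Stmts

namespace Pool.Agent.KA129.TaskTri

theorem mem_Y {m k : ℕ} {y : List (Fin (m + 1))} (h : y ∈ Y m k) :
    y.length = k ∧ y.head? ≠ some 0 := by
  unfold Y at h
  rw [Finset.mem_filter, Finset.mem_image] at h
  obtain ⟨⟨v, -, rfl⟩, h2⟩ := h
  exact ⟨v.2, h2⟩

theorem key {m k : ℕ} (a : Fin (m + 1)) (y z t : List (Fin (m + 1))) (hy : (a :: y).length = k)
    (hz : z.length = k) (ha : a ≠ 0) (ht : t <:+ y ++ List.replicate (k - 1) 0)
    (hzt : z <+: t) : (a :: y).count 0 < z.count 0 := by
  obtain ⟨s, hs⟩ := ht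
  obtain ⟨r, hr⟩ := hzt
  have e1 : (s ++ (z ++ r)).count 0 = (y ++ List.replicate (k - 1) 0).count 0 := by
    rw [hr, hs]
  have e2 : (s ++ (z ++ r)).length = (y ++ List.replicate (k - 1) 0).length := by
    rw [hr, hs]
  simp only [List.count_append, List.length_append, List.count_replicate_self,
    List.length_replicate] at e1 e2
  have e3 : s.count 0 ≤ s.length := List.count_le_length
  have e4 : r.count 0 ≤ r.length := List.count_le_length
  have e5 : (a :: y).count 0 = y.count 0 := List.count_cons_of_ne (by simpa using ha)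
  simp only [List.length_cons] at hy
  omega

theorem occ_eq {m k : ℕ} (hk : 1 ≤ k) (y z : List (Fin (m + 1))) (hy : y.length = k)
    (hz : z.length = k) (hh : y.head? ≠ some 0) (hc : z.count 0 ≤ y.count 0) :
    occ z (y ++ List.replicate (k - 1) 0) = if z = y then 1 else 0 := by
  cases y with
  | nil => simp at hy; omega
  | cons a y =>
    have ha : a ≠ 0 := by
      intro h
      apply hh
      simp [h]
    unfold occ
    have h0 : (List.tails (y ++ List.replicate (k - 1) 0)).countP (fun t => decide (z <+: t)) = 0 := by
      rw [List.countP_eq_zero]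
      intro t ht
      rw [List.mem_tails] at ht
      intro hcon
      have := key a y z t hy hz ha ht (by simpa using hcon)
      omega
    rw [List.cons_append, List.tails, List.countP_cons, h0]
    by_cases hzy : z = a :: y
    · rw [if_pos hzy, hzy]
      simp only [decide_eq_true_eq]
      rw [if_pos]
      exact ⟨List.replicate (k - 1) 0, by simp⟩
    · rw [if_neg hzy]
      simp only [decide_eq_true_eq]
      rw [if_neg]
      rintro ⟨r, hr⟩
      have h1 : z ++ r = (a :: y) ++ List.replicate (k - 1) 0 := by simpa using hr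
      exact hzy (List.append_inj h1 (by rw [hy, hz])).1

/-- without the hypothesis -/
theorem main' : Pool.Agent.KA129.TaskTri := by
  intro m k t t' hk hsum
  have H : ∀ n : ℕ, ∀ z ∈ Y m k, z.count 0 = n → t z = t' z := by
    intro n
    induction n using Nat.strong_induction_on with
    | _ n ih =>
      intro z hz hzn
      have hz' := mem_Y hz
      have h1 := hsum z hz
      rw [← Finset.add_sum_erase _ _ hz, ← Finset.add_sum_erase _ _ hz] at h1
      have h2 : ∑ y ∈ (Y m k).erase z, t y * occ z (y ++ List.replicate (k - 1) 0) =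
          ∑ y ∈ (Y m k).erase z, t' y * occ z (y ++ List.replicate (k - 1) 0) := by
        refine Finset.sum_congr rfl ?_
        intro y hy
        rw [Finset.mem_erase] at hy
        have hy' := mem_Y hy.2
        by_cases hc : z.count 0 ≤ y.count 0
        · rw [occ_eq hk y z hy'.1 hz'.1 hy'.2 hc, if_neg (Ne.symm hy.1)]
          simp
        · rw [ih (y.count 0) (by omega) y hy.2 rfl]
      rw [h2, occ_eq hk z z hz'.1 hz'.1 hz'.2 le_rfl, if_pos rfl] at h1
      omega
  intro y hy
  exact H _ y hy rfl

theorem main (_hY : TaskY) : Pool.Agent.KA129.TaskTri := main'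

end Pool.Agent.KA129.TaskTri
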