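import Pool.Agent.KA129.Stmts

namespace Pool.Agent.KA129.TaskUpProof

open Pool.Agent.KA129

theorem ncard_range_le {α β γ : Type} [Finite γ] (f : α → β) (g : α → γ)
    (h : ∀ x y, g x = g y → f x = f y) : (Set.range f).ncard ≤ Nat.card γ := by
  have hinj : Function.Injective (fun b : Set.range f => g b.2.choose) := by
    intro b b' hb
    have h1 := h _ _ hb
    rw [b.2.choose_spec, b'.2.choose_spec] at h1
    exact Subtype.ext h1
  have h2 := Nat.card_le_card_of_injective _ hinj
  rwa [Nat.card_coe_set_eq] at h2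

theorem occ_le {A : Type} [DecidableEq A] (y : List A) (hy : y ≠ []) (w : List A) :
    occ y w ≤ w.length := by
  induction w with
  | nil =>
    unfold occ
    have : ¬ (y <+: []) := fun h => hy (List.prefix_nil.1 h)
    simp [this]
  | cons a w ih =>
    unfold occ at ih ⊢
    rw [List.tails_cons, List.countP_cons, List.length_cons]
    split_ifs <;> omega

theorem main (hY : TaskY) (hS : TaskSig) : TaskUp := by
  intro m k L hk hL
  classical
  have h0 : numClasses (m + 1) k L = (Set.range (fun w : {w : List (Fin (m + 1)) // w.length = L} =>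
      {v : List (Fin (m + 1)) | v.length = L ∧ KAb k w.1 v})).ncard := by
    unfold numClasses
    congr 1
    ext C
    constructor
    · rintro ⟨w, hw, rfl⟩; exact ⟨⟨w, hw⟩, rfl⟩
    · rintro ⟨⟨w, hw⟩, rfl⟩; exact ⟨w, hw, rfl⟩
  rw [h0]
  let T := List.Vector (Fin (m + 1)) (k - 1) × List.Vector (Fin (m + 1)) (k - 1) ×
    ((Y m k) → Fin (L + 1))
  have hc : Nat.card T = ((m + 1) ^ (k - 1)) ^ 2 * (L + 1) ^ (Y m k).card := by
    rw [Nat.card_eq_fintype_card]
    simp only [T, Fintype.card_prod, card_vector, Fintype.card_fin, Fintype.card_fun,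
      Fintype.card_coe]
    ring
  rw [← hc]
  have hlen : ∀ y ∈ Y m k, y.length = k := fun y hy => (((hY m k hk).1 y).1 hy).1
  have hne : ∀ y ∈ Y m k, y ≠ [] := by
    rintro y hy rfl
    have := hlen _ hy
    simp at this
    omega
  refine ncard_range_le _ (fun w => (⟨w.1.take (k - 1), by rw [List.length_take, w.2]; omega⟩,
    ⟨w.1.drop (L - (k - 1)), by rw [List.length_drop, w.2]; omega⟩,
    fun y => ⟨occ y.1 w.1, by
      have := occ_le y.1 (hne _ y.2) w.1
      rw [w.2] at this
      omega⟩) : _ → T) ?_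
  rintro ⟨u, hu⟩ ⟨v, hv⟩ h
  have h1' : u.take (k - 1) = v.take (k - 1) := congrArg (fun t : T => t.1.1) h
  have h2' : u.drop (L - (k - 1)) = v.drop (L - (k - 1)) := congrArg (fun t : T => t.2.1.1) h
  have h3 := congrArg (fun t : T => t.2.2) h
  have hK : KAb k u v := by
    refine hS m k u v hk (hu.trans hv.symm) (by rw [hu]; exact hL) h1' (by rw [hu, hv]; exact h2') ?_
    intro y hy1 hy2
    have h4 := congrFun h3 ⟨y, ((hY m k hk).1 y).2 ⟨hy1, hy2⟩⟩
    exact congrArg Fin.val h4
  ext z
  simp only [Set.mem_ofPred_eq]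
  constructor
  · rintro ⟨hz, hz2⟩
    exact ⟨hz, fun x hx hxk => (hK x hx hxk).symm.trans (hz2 x hx hxk)⟩
  · rintro ⟨hz, hz2⟩
    exact ⟨hz, fun x hx hxk => (hK x hx hxk).trans (hz2 x hx hxk)⟩

end Pool.Agent.KA129.TaskUpProof

namespace Pool.Agent.KA129

theorem taskUp (hY : TaskY) (hS : TaskSig) : TaskUp := TaskUpProof.main hY hS

end Pool.Agent.KA129

namespace Pool.Agent.KA129.TaskUp

theorem main (hY : TaskY) (hS : TaskSig) : Pool.Agent.KA129.TaskUp := TaskUpProof.main hY hS

end Pool.Agent.KA129.TaskUp
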