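import Pool.Agent.KA129.Stmts

set_option autoImplicit false

namespace Pool.Agent.KA129.TaskY

open Pool.Agent.KA129

theorem mem_Y (m k : ℕ) (y : List (Fin (m + 1))) :
    y ∈ Y m k ↔ y.length = k ∧ y.head? ≠ some 0 := by
  unfold Y
  rw [Finset.mem_filter, Finset.mem_image]
  constructor
  · rintro ⟨⟨v, -, rfl⟩, h⟩
    exact ⟨v.toList_length, h⟩
  · rintro ⟨h1, h2⟩
    exact ⟨⟨⟨y, h1⟩, Finset.mem_univ _, rfl⟩, h2⟩

theorem main : Pool.Agent.KA129.TaskY := by
  intro m k hk
  refine ⟨mem_Y m k, ?_⟩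
  obtain ⟨j, rfl⟩ : ∃ j, k = j + 1 := ⟨k - 1, by omega⟩
  have h : Y m (j + 1) =
      ((Finset.univ : Finset (Fin m × List.Vector (Fin (m + 1)) j)).image
        (fun q => q.1.succ :: q.2.toList)) := by
    ext y
    rw [mem_Y, Finset.mem_image]
    constructor
    · rintro ⟨h1, h2⟩
      cases y with
      | nil => simp at h1
      | cons a l =>
        have ha : a ≠ 0 := by
          intro h0
          apply h2
          simp [h0]
        have hl : l.length = j := by simpa using h1
        refine ⟨(a.pred ha, ⟨l, hl⟩), Finset.mem_univ _, ?_⟩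
        show (a.pred ha).succ :: l = a :: l
        rw [Fin.succ_pred]
    · rintro ⟨⟨a, v⟩, -, rfl⟩
      refine ⟨?_, ?_⟩
      · simp
      · simp [Fin.succ_ne_zero]
  rw [h, Finset.card_image_of_injective]
  · rw [Finset.card_univ, Fintype.card_prod, Fintype.card_fin, card_vector, Fintype.card_fin]
    simp
  · rintro ⟨a, v⟩ ⟨b, w⟩ hq
    have hq' : a.succ :: v.toList = b.succ :: w.toList := hq
    rw [List.cons.injEq] at hq'
    obtain ⟨h1, h2⟩ := hq'
    have h3 : a = b := Fin.succ_injective _ h1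
    have h4 : v = w := List.Vector.toList_injective h2
    rw [h3, h4]

end Pool.Agent.KA129.TaskY
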